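import Pool.Agent.H586.AF.C

/-! # Project AF: task AF-Q13 (block 13 of the Hessian) -/

set_option autoImplicit false

open Matrix Finset Pool.Agent.H586.AF

namespace Pool.Agent.H710.AF

theorem sbp_aux {R : Type*} [CommRing R] (P Q : ℕ → R) (n : ℕ) :
    ∑ x ∈ range (n + 1), P x * (Q (x + 1) - Q x) =
      ∑ x ∈ range n, (P x - P (x + 1)) * Q (x + 1) + P n * Q (n + 1) - P 0 * Q 0 := by
  induction n with
  | zero => simp [mul_sub]
  | succ n ih =>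
    rw [sum_range_succ, ih, sum_range_succ]
    ring

/-- summation by parts, second factor zero at both ends -/
theorem sbp {R : Type*} [CommRing R] (P Q : ℕ → R) {L : ℕ} (hL : 1 ≤ L) (h0 : Q 0 = 0)
    (h1 : Q L = 0) :
    ∑ x ∈ range L, P x * (Q (x + 1) - Q x) = ∑ x ∈ range (L - 1), (P x - P (x + 1)) * Q (x + 1) := by
  obtain ⟨n, rfl⟩ : ∃ n, L = n + 1 := ⟨L - 1, by omega⟩
  rw [sbp_aux, h0, h1]
  simp

theorem dmsum {L : ℕ} (hL : 2 ≤ L) (f : Fin L → ℂ) (k : Fin (L - 1)) :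
    ∑ j : Fin L, ((dm L (L - 1) j k : ℝ) : ℂ) * f j =
      f ⟨k, by omega⟩ - f ⟨(k : ℕ) + 1, by omega⟩ := by
  have h1 : ∀ j : Fin L, ((dm L (L - 1) j k : ℝ) : ℂ) * f j =
      (if j = (⟨k, by omega⟩ : Fin L) then f j else 0) -
        (if j = (⟨(k : ℕ) + 1, by omega⟩ : Fin L) then f j else 0) := by
    intro j
    have e1 : ((k : ℕ) = (j : ℕ)) ↔ j = (⟨k, by omega⟩ : Fin L) := by
      rw [Fin.ext_iff]
      exact eq_comm
    have e2 : ((k : ℕ) + 1 = (j : ℕ)) ↔ j = (⟨(k : ℕ) + 1, by omega⟩ : Fin L) := by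
      rw [Fin.ext_iff]
      exact eq_comm
    simp only [dm, e1, e2]
    split_ifs <;> simp
  simp only [h1, sum_sub_distrib, sum_ite_eq', mem_univ, if_true]

theorem sum_g1 {L : ℕ} (hL : 2 ≤ L) (a : I1 L → ℂ) (k : I0 L) :
    ∑ i, star (a i) * g1 L i k =
      star (a (⟨k.1, by omega⟩, k.2.1, k.2.2.1, k.2.2.2)) -
        star (a (⟨(k.1 : ℕ) + 1, by omega⟩, k.2.1, k.2.2.1, k.2.2.2)) := by
  rw [← dmsum hL (fun j => star (a (j, k.2.1, k.2.2.1, k.2.2.2))) k.1]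
  rw [Fintype.sum_prod_type]
  refine sum_congr rfl fun j _ => ?_
  rw [Fintype.sum_eq_single (k.2.1, k.2.2.1, k.2.2.2)]
  · simp [g1, k4, mul_comm]
  · rintro ⟨x, y, z⟩ hne
    have : ¬ (x = k.2.1 ∧ y = k.2.2.1 ∧ z = k.2.2.2) := by
      rintro ⟨rfl, rfl, rfl⟩
      exact hne rfl
    simp only [g1, k4, Matrix.one_apply]
    by_cases hx : x = k.2.1
    · by_cases hy : y = k.2.2.1
      · have hz : z ≠ k.2.2.2 := fun hz => this ⟨hx, hy, hz⟩
        simp [hz]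
      · simp [hy]
    · simp [hx]

theorem sum_g3 {L : ℕ} (hL : 2 ≤ L) (b : I3 L → ℂ) (k : I0 L) :
    ∑ j, star (g3 L j k) * b j =
      b (k.1, k.2.1, ⟨k.2.2.1, by omega⟩, k.2.2.2) -
        b (k.1, k.2.1, ⟨(k.2.2.1 : ℕ) + 1, by omega⟩, k.2.2.2) := by
  rw [← dmsum hL (fun j => b (k.1, k.2.1, j, k.2.2.2)) k.2.2.1]
  rw [Fintype.sum_prod_type, Fintype.sum_eq_single k.1]
  · rw [Fintype.sum_prod_type, Fintype.sum_eq_single k.2.1]
    · rw [Fintype.sum_prod_type]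
      refine sum_congr rfl fun j _ => ?_
      rw [Fintype.sum_eq_single k.2.2.2]
      · simp [g3, k4]
      · intro z hz
        simp [g3, k4, Matrix.one_apply, hz]
    · intro y hy
      rw [Fintype.sum_prod_type]
      refine sum_eq_zero fun j _ => sum_eq_zero fun z _ => ?_
      simp [g3, k4, Matrix.one_apply, hy]
  · intro x hx
    refine sum_eq_zero fun j _ => ?_
    simp [g3, k4, Matrix.one_apply, hx]

theorem hf_eq {L : ℕ} (hL : 2 ≤ L) (a : I1 L → ℂ) (b : I3 L → ℂ) :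
    hf a (-(g1 L * (g3 L)ᴴ)) b = (-∑ k : I0 L,
      (star (a (⟨k.1, by omega⟩, k.2.1, k.2.2.1, k.2.2.2)) -
        star (a (⟨(k.1 : ℕ) + 1, by omega⟩, k.2.1, k.2.2.1, k.2.2.2))) *
      (b (k.1, k.2.1, ⟨k.2.2.1, by omega⟩, k.2.2.2) -
        b (k.1, k.2.1, ⟨(k.2.2.1 : ℕ) + 1, by omega⟩, k.2.2.2))).re := by
  unfold hf
  congr 1
  simp only [← sum_g1 hL, ← sum_g3 hL]
  have h1 : ∀ k : I0 L, (∑ i, star (a i) * g1 L i k) * (∑ j, star (g3 L j k) * b j) =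
      ∑ i, ∑ j, star (a i) * (g1 L i k * star (g3 L j k)) * b j := by
    intro k
    rw [sum_mul_sum]
    refine sum_congr rfl fun i _ => sum_congr rfl fun j _ => by ring
  have h2 : ∑ k : I0 L, ∑ i, ∑ j, star (a i) * (g1 L i k * star (g3 L j k)) * b j =
      ∑ i, ∑ j, ∑ k : I0 L, star (a i) * (g1 L i k * star (g3 L j k)) * b j := by
    rw [sum_comm]
    exact sum_congr rfl fun i _ => sum_comm
  simp only [h1]
  rw [h2]
  simp only [Matrix.neg_apply, Matrix.mul_apply, Matrix.conjTranspose_apply, mul_neg, neg_mul,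
    sum_mul, mul_sum, sum_neg_distrib]

theorem sum_Ico_fin {L : ℕ} (f : ℕ → ℂ) :
    ∑ y ∈ Ico 1 L, f y = ∑ k : Fin (L - 1), f ((k : ℕ) + 1) := by
  rw [sum_Ico_eq_sum_range, sum_range]
  exact sum_congr rfl fun k _ => by rw [add_comm]

theorem sum_Icc_fin {L : ℕ} (f : ℕ → ℂ) :
    ∑ y ∈ Icc 1 L, f y = ∑ k : Fin L, f ((k : ℕ) + 1) := by
  have h : Icc 1 L = Ico 1 (L + 1) := by
    ext y
    simp only [mem_Icc, mem_Ico]
    omega
  rw [h, sum_Ico_eq_sum_range, sum_range]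
  exact sum_congr rfl fun k _ => by rw [add_comm]

theorem ex1_pos {L : ℕ} (a : I1 L → ℂ) (x : Fin L) (y z : Fin (L - 1)) (h : Fin L) :
    ex1 L a 0 (x : ℕ) ((y : ℕ) + 1) ((z : ℕ) + 1) ((h : ℕ) + 1) = a (x, y, z, h) := by
  unfold ex1
  rw [dif_pos (by
    refine ⟨⟨x.2, ?_, ?_, ?_⟩, ?_, ?_, ?_⟩ <;> omega)]
  rfl

theorem ex3_pos {L : ℕ} (b : I3 L → ℂ) (x y : Fin (L - 1)) (z h : Fin L) :
    ex3 L b 0 ((x : ℕ) + 1) ((y : ℕ) + 1) (z : ℕ) ((h : ℕ) + 1) = b (x, y, z, h) := by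
  unfold ex3
  rw [dif_pos (by
    refine ⟨⟨?_, ?_, z.2, ?_⟩, ?_, ?_, ?_⟩ <;> omega)]
  rfl

theorem ex1_z0 {L : ℕ} (a : I1 L → ℂ) (x y h : ℕ) : ex1 L a 0 x y 0 h = 0 := by
  unfold ex1
  rw [dif_neg (by omega)]

theorem ex1_zL {L : ℕ} (_ : 2 ≤ L) (a : I1 L → ℂ) (x y h : ℕ) : ex1 L a 0 x y L h = 0 := by
  unfold ex1
  rw [dif_neg (by omega)]

theorem ex3_x0 {L : ℕ} (b : I3 L → ℂ) (y z h : ℕ) : ex3 L b 0 0 y z h = 0 := by
  unfold ex3
  rw [dif_neg (by omega)]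

theorem ex3_xL {L : ℕ} (_ : 2 ≤ L) (b : I3 L → ℂ) (y z h : ℕ) : ex3 L b 0 L y z h = 0 := by
  unfold ex3
  rw [dif_neg (by omega)]

/-- the sum in the directions 1 and 3 -/
theorem parts {L : ℕ} (hL : 2 ≤ L) (A B : ℕ → ℕ → ℂ) (hA0 : ∀ x, A x 0 = 0)
    (hAL : ∀ x, A x L = 0) (hB0 : ∀ z, B 0 z = 0) (hBL : ∀ z, B L z = 0) :
    ∑ x ∈ range L, ∑ z ∈ range L, (A x z - A x (z + 1)) * star (B (x + 1) z - B x z) =
      -∑ x : Fin (L - 1), ∑ z : Fin (L - 1),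
        (A x ((z : ℕ) + 1) - A ((x : ℕ) + 1) ((z : ℕ) + 1)) *
          star (B ((x : ℕ) + 1) z - B ((x : ℕ) + 1) ((z : ℕ) + 1)) := by
  have h1 : ∑ x ∈ range L, ∑ z ∈ range L, (A x z - A x (z + 1)) * star (B (x + 1) z - B x z) =
      ∑ z ∈ range L, ∑ x ∈ range (L - 1),
        ((A x z - A x (z + 1)) - (A (x + 1) z - A (x + 1) (z + 1))) * star (B (x + 1) z) := by
    rw [sum_comm]
    refine sum_congr rfl fun z _ => ?_
    rw [← sbp (fun x => A x z - A x (z + 1)) (fun x => star (B x z)) (by omega)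
      (by simp only [hB0, star_zero]) (by simp only [hBL, star_zero])]
    refine sum_congr rfl fun x _ => ?_
    rw [star_sub]
  rw [h1, sum_comm, sum_range, ← sum_neg_distrib]
  refine sum_congr rfl fun x _ => ?_
  rw [← sum_range (fun z => (A (x : ℕ) (z + 1) - A ((x : ℕ) + 1) (z + 1)) *
    star (B ((x : ℕ) + 1) z - B ((x : ℕ) + 1) (z + 1)))]
  have h2 := sbp (fun z => star (B ((x : ℕ) + 1) z)) (fun z => A x z - A ((x : ℕ) + 1) z)
    (L := L) (by omega) (by simp only [hA0, sub_zero]) (by simp only [hAL, sub_zero])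
  calc ∑ z ∈ range L, ((A (x : ℕ) z - A x (z + 1)) - (A ((x : ℕ) + 1) z - A ((x : ℕ) + 1) (z + 1))) *
        star (B ((x : ℕ) + 1) z)
      = -∑ z ∈ range L, star (B ((x : ℕ) + 1) z) *
          ((A (x : ℕ) (z + 1) - A ((x : ℕ) + 1) (z + 1)) - (A x z - A ((x : ℕ) + 1) z)) := by
        rw [← sum_neg_distrib]
        refine sum_congr rfl fun z _ => by ring
    _ = _ := by
        rw [h2]
        congr 1
        refine sum_congr rfl fun z _ => ?_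
        rw [star_sub]
        ring

theorem tq13 : S_Q13 := by
  intro L hL a b
  rw [hf_eq hL]
  unfold s13
  have h1 : ∑ x ∈ range L, ∑ y ∈ Ico 1 L, ∑ z ∈ range L, ∑ h ∈ Icc 1 L,
      ((ex1 L a 0 x y z h - ex1 L a 0 x y (z + 1) h) *
        star (ex3 L b 0 (x + 1) y z h - ex3 L b 0 x y z h)).re =
      (∑ y ∈ Ico 1 L, ∑ h ∈ Icc 1 L, ∑ x ∈ range L, ∑ z ∈ range L,
      (ex1 L a 0 x y z h - ex1 L a 0 x y (z + 1) h) *
        star (ex3 L b 0 (x + 1) y z h - ex3 L b 0 x y z h)).re := by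
    simp only [Complex.re_sum]
    rw [sum_comm]
    refine sum_congr rfl fun y _ => ?_
    rw [sum_comm]
    calc _ = ∑ z ∈ range L, ∑ h ∈ Icc 1 L, ∑ x ∈ range L,
          ((ex1 L a 0 x y z h - ex1 L a 0 x y (z + 1) h) *
            star (ex3 L b 0 (x + 1) y z h - ex3 L b 0 x y z h)).re :=
          sum_congr rfl fun z _ => sum_comm
      _ = ∑ h ∈ Icc 1 L, ∑ z ∈ range L, ∑ x ∈ range L,
          ((ex1 L a 0 x y z h - ex1 L a 0 x y (z + 1) h) *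
            star (ex3 L b 0 (x + 1) y z h - ex3 L b 0 x y z h)).re := sum_comm
      _ = _ := sum_congr rfl fun h _ => sum_comm
  rw [h1]
  have h2 : ∀ y h : ℕ, ∑ x ∈ range L, ∑ z ∈ range L,
      (ex1 L a 0 x y z h - ex1 L a 0 x y (z + 1) h) *
        star (ex3 L b 0 (x + 1) y z h - ex3 L b 0 x y z h) =
      -∑ x : Fin (L - 1), ∑ z : Fin (L - 1),
        (ex1 L a 0 x y ((z : ℕ) + 1) h - ex1 L a 0 ((x : ℕ) + 1) y ((z : ℕ) + 1) h) *
          star (ex3 L b 0 ((x : ℕ) + 1) y z h - ex3 L b 0 ((x : ℕ) + 1) y ((z : ℕ) + 1) h) :=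
    fun y h => parts hL (fun x z => ex1 L a 0 x y z h) (fun x z => ex3 L b 0 x y z h)
      (fun x => ex1_z0 a x y h) (fun x => ex1_zL hL a x y h) (fun z => ex3_x0 b y z h)
      (fun z => ex3_xL hL b y z h)
  simp only [h2]
  rw [sum_Ico_fin]
  simp only [sum_Icc_fin]
  have h3 : ∀ (x : Fin (L - 1)) (y z : Fin (L - 1)) (h : Fin L),
      (ex1 L a 0 x ((y : ℕ) + 1) ((z : ℕ) + 1) ((h : ℕ) + 1) -
        ex1 L a 0 ((x : ℕ) + 1) ((y : ℕ) + 1) ((z : ℕ) + 1) ((h : ℕ) + 1)) *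
      star (ex3 L b 0 ((x : ℕ) + 1) ((y : ℕ) + 1) z ((h : ℕ) + 1) -
        ex3 L b 0 ((x : ℕ) + 1) ((y : ℕ) + 1) ((z : ℕ) + 1) ((h : ℕ) + 1)) =
      star ((star (a (⟨x, by omega⟩, y, z, h)) - star (a (⟨(x : ℕ) + 1, by omega⟩, y, z, h))) *
        (b (x, y, ⟨z, by omega⟩, h) - b (x, y, ⟨(z : ℕ) + 1, by omega⟩, h))) := by
    intro x y z h
    rw [← ex1_pos a ⟨x, by omega⟩ y z h, ← ex1_pos a ⟨(x : ℕ) + 1, by omega⟩ y z h,
      ← ex3_pos b x y ⟨z, by omega⟩ h, ← ex3_pos b x y ⟨(z : ℕ) + 1, by omega⟩ h]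
    simp only [star_mul', star_sub, star_star]
  simp only [h3]
  rw [Complex.neg_re]
  simp only [sum_neg_distrib, Complex.neg_re]
  congr 1
  simp only [← star_sum, Fintype.sum_prod_type]
  rw [Complex.star_def, Complex.conj_re]
  simp only [Complex.re_sum]
  calc ∑ y : Fin (L - 1), ∑ h : Fin L, ∑ x : Fin (L - 1), ∑ z : Fin (L - 1),
        ((star (a (⟨x, by omega⟩, y, z, h)) - star (a (⟨(x : ℕ) + 1, by omega⟩, y, z, h))) *
        (b (x, y, ⟨z, by omega⟩, h) - b (x, y, ⟨(z : ℕ) + 1, by omega⟩, h))).re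
      = ∑ y : Fin (L - 1), ∑ x : Fin (L - 1), ∑ h : Fin L, ∑ z : Fin (L - 1),
        ((star (a (⟨x, by omega⟩, y, z, h)) - star (a (⟨(x : ℕ) + 1, by omega⟩, y, z, h))) *
        (b (x, y, ⟨z, by omega⟩, h) - b (x, y, ⟨(z : ℕ) + 1, by omega⟩, h))).re :=
        sum_congr rfl fun y _ => sum_comm
    _ = ∑ x : Fin (L - 1), ∑ y : Fin (L - 1), ∑ h : Fin L, ∑ z : Fin (L - 1),
        ((star (a (⟨x, by omega⟩, y, z, h)) - star (a (⟨(x : ℕ) + 1, by omega⟩, y, z, h))) *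
        (b (x, y, ⟨z, by omega⟩, h) - b (x, y, ⟨(z : ℕ) + 1, by omega⟩, h))).re := sum_comm
    _ = _ := sum_congr rfl fun x _ => sum_congr rfl fun y _ => sum_comm

end Pool.Agent.H710.AF
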